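import Pool.Agent.LibSC59.Fin
import Pool.Agent.LibPP83.Cor
import Pool.Agent.LibPow85.Main
import Pool.Agent.LibAV75.Main
import Pool.Agent.LibDown92.Top

/-!
Consequences.
-/

namespace Pool.Agent.LibSC59

open Finset Filter Pool.Agent.LibNexp Pool.Agent.LibBHN Pool.Agent.LibNexp55 Pool.Agent.LibQry85
  Pool.Agent.LibDual85

variable {O : List Bool → Bool}

/-- Every program for a nondeterministic exponential time language errs on the complement of the
test language, with every advice of length at most `n - 2`, at infinitely many lengths `n`. -/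
def Hard (O : List Bool → Bool) : Prop :=
  ∀ B ∈ NEXPLang O, ∃ᶠ n in atTop, ∀ v : List Bool, v.length + 2 ≤ n →
    ∃ x : List Bool, x.length = n ∧ ¬ (x ∉ WitLang O ↔ pair x v ∈ B)

theorem hard_of (h : ∀ (B : Lang) (c : ℕ), NTime O (fun n => 2 ^ (2 ^ (n / 20) + n ^ c + c))
        (fun e : Fin 1 → List Bool => e 0 ∈ B) →
      ∃ᶠ n in atTop, ∀ v : List Bool, v.length + 2 ≤ n →
        ∃ x : List Bool, x.length = n ∧ ¬ (x ∉ WitLang O ↔ pair x v ∈ B)) : Hard O := by
  intro B hB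
  obtain ⟨c, p, hp⟩ := hB
  refine h B c ⟨p, fun e => ⟨(hp e).1, fun he => ?_⟩⟩
  obtain ⟨t, σ', ht, h1⟩ := (hp e).2 he
  refine ⟨t, σ', ht.trans (Nat.pow_le_pow_right (by norm_num) ?_), h1⟩
  show size e ^ c + c ≤ 2 ^ (size e / 20) + size e ^ c + c
  rw [Nat.add_assoc]
  exact Nat.le_add_left _ _

/-- Every advice short at all large lengths is wrong. -/
theorem no_advice (h : Hard O) {ℱ : Set (ℕ → List Bool)}
    (hℱ : ∀ f ∈ ℱ, ∀ᶠ n in atTop, (f n).length + 2 ≤ n) :
    (WitLang O)ᶜ ∉ WithAdvice (NEXPLang O) ℱ := by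
  rintro ⟨B, hB, f, hf, he⟩
  obtain ⟨n, hn, hC⟩ := ((h B hB).and_eventually (hℱ f hf)).exists
  obtain ⟨x, hx, hne⟩ := hn (f n) hC
  refine hne ?_
  have := Set.ext_iff.1 he x
  rw [Set.mem_compl_iff, Set.mem_ofPred_eq, hx] at this
  exact this

theorem bh_infinite (h : Hard O) {m : ℕ} (hm : 1 ≤ m) : BH O m ≠ BH O (m + 1) := by
  intro hbh
  have h1 := (levels O hm).out 1 4
  refine no_advice h (fun f hf => ?_) (h1.1 hbh.symm (strs m) (by
    rw [card_strs]; exact Nat.lt_two_pow_self.le) (WitLang O) witLang_mem')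
  filter_upwards [eventually_ge_atTop (m + 2)] with n hn
  rw [mem_strs.1 (hf n)]
  exact hn

/-- Doubly exponential time is not closed under complement. -/
theorem not_closed (h : Hard O) : ¬ LibDown92.Closed O fun n => 2 ^ n := by
  intro hC
  obtain ⟨c, hc⟩ := LibDown92.top_savings hC 1 (WitLang O) witLang_mem'
  refine no_advice h (fun f hf => ?_) hc
  filter_upwards [eventually_ge_atTop (2 ^ (c + 2))] with n hn
  have h1 := hf n
  have h2 : c + 2 ≤ Nat.log 2 (n + 1) := Nat.le_log_of_pow_le (by norm_num) (by omega)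
  have h3 : Nat.log 2 (n + 1) ≤ n := Nat.lt_succ_iff.1 (Nat.log_lt_of_lt_pow (by omega)
    (Nat.lt_two_pow_self))
  change (f n).length ≤ n - 1 * Nat.log 2 (n + 1) + c at h1
  omega

theorem not_more (h : Hard O) : ∃ L ∈ NEXPLang O, ∀ N ∈ NEXPLang O, ∃ᶠ m in atTop,
    2 ^ m ≤ 2 * LibAV75.err Lᶜ N m := by
  have h1 : ¬ LibAV75.More O := fun h2 => not_closed h ((LibAV75.main4 O).1 h2)
  unfold LibAV75.More at h1
  push Not at h1
  obtain ⟨L, hL, h2⟩ := h1
  refine ⟨L, hL, fun N hN => (h2 N hN).mono fun m hm => ?_⟩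
  exact hm

/-- The five conditions of `LibPow85.main` fail. -/
theorem pow_fail (h : Hard O) :
    (∀ α β : ℚ, 0 ≤ α → α < β → ∃ L ∈ PQueryF (NEXPLang O) (LibPow85.fpow β), ∀ c : ℕ,
      L ∉ PQueryF (NEXPLang O) fun n => c * LibPow85.fpow α n + c) ∧
    ∀ k : ℕ, ∃ L ∈ POracle (NEXPLang O), ∀ c : ℕ,
      L ∉ PQueryF (NEXPLang O) fun n => c * n ^ k + c := by
  have h1 := LibPow85.main O
  have h6 : ¬ ∀ ε : ℝ, 0 < ε → Pw O ε := by
    intro h2
    obtain ⟨c, hc⟩ := h2 (1 / 2) (by norm_num) (WitLang O) witLang_mem'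
    refine no_advice h (fun f hf => ?_) hc
    have h3 : Tendsto (fun n : ℕ => ((n : ℝ) + 1) ^ (1 / 2 : ℝ)) atTop atTop :=
      (tendsto_rpow_atTop (by norm_num)).comp
        (tendsto_atTop_add_const_right _ _ tendsto_natCast_atTop_atTop)
    filter_upwards [h3.eventually_ge_atTop (|c| + 3)] with n hn
    have h4 : ((f n).length : ℝ) ≤ c * ((n : ℝ) + 1) ^ (1 / 2 : ℝ) := hf n
    have h5 : ((n : ℝ) + 1) ^ (1 / 2 : ℝ) * ((n : ℝ) + 1) ^ (1 / 2 : ℝ) = (n : ℝ) + 1 := by
      rw [← Real.rpow_add (by positivity)]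
      norm_num
    have h7 : c ≤ |c| := le_abs_self c
    have h8 : 0 ≤ |c| := abs_nonneg c
    have h9 : ((f n).length : ℝ) + 2 ≤ n := by nlinarith
    exact_mod_cast h9
  refine ⟨?_, ?_⟩
  · intro α β hα hαβ
    by_contra hcon
    push Not at hcon
    have h04 := h1.out 0 4
    exact h6 (h04.1 ⟨α, β, hα, hαβ, hcon⟩)
  · intro k
    by_contra hcon
    push Not at hcon
    have h24 := h1.out 2 4
    exact h6 (h24.1 ⟨k, hcon⟩)

end Pool.Agent.LibSC59
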