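import Pool.Agent.LibSC59.Diag1

/-!
Every program errs on the complement of the test language, with any short advice.
-/

namespace Pool.Agent.LibSC59

open Finset Filter Classical Pool.Agent.LibNexp Pool.Agent.LibSpec4 Pool.Agent.LibPP83

variable {en : ℕ → Prog × ℕ} {φ : Part} {n : ℕ}

theorem diag (hV : Valid en φ n) (N : ℕ) (h1 : 2 ≤ n)
    (h3 : pz 0 (2 * qN en N n) < 2 ^ n) :
    ∃ (ψ : Part) (m : ℕ), φ.Le ψ ∧ n < m ∧ Valid en ψ m ∧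
      ∀ O : Str → Bool, ψ.Ext O → Met en N n O := by
  have h2 : 2 * 2 ^ (n - 2) = 2 ^ (n - 1) := by
    rw [← pow_succ']
    congr 1
    omega
  obtain ⟨σ, hσ⟩ := window (J := 2 * 2 ^ (n - 2)) hV (le_qN (en := en) N)
    (Or.inr ⟨by omega, h2.le, h3⟩)
  obtain ⟨κ, hκ, hw⟩ := exists_world (M := 2 ^ (n - 2)) Nat.one_le_two_pow
    (fun κ' v => σ (N, pair (xs n (κ' - 1)) v))
  obtain ⟨ψ, hle, hval, hO⟩ := hσ κ hκ
  refine ⟨ψ, qN en N n + 1, hle, Nat.lt_succ_of_le (le_qN N), hval, fun O hext =>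
    ⟨n, le_rfl, fun v hv => ?_⟩⟩
  obtain ⟨κ', h1', h2', hne⟩ := hw v (Nat.pow_le_pow_right (by norm_num) (by omega))
  obtain ⟨hacc, hwit⟩ := hO O hext
  have hlx : (xs n (κ' - 1)).length = n := length_xs (by omega)
  obtain ⟨hl1, hl2⟩ := lvl_le (en := en) (N := N) hlx hv
  refine ⟨xs n (κ' - 1), hlx, fun hiff => hne ?_⟩
  have ha := hacc (N, pair (xs n (κ' - 1)) v) hl1 hl2
  have hb := hwit κ' h1' h2'
  rw [← ha, ← hiff, hb]
  omega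

theorem idle_iter (hV : Valid en φ n) : ∀ d : ℕ, ∃ ψ : Part, φ.Le ψ ∧ Valid en ψ (n + d) := by
  intro d
  induction d with
  | zero => exact ⟨φ, ⟨Finset.Subset.refl _, fun z _ => Iff.rfl⟩, hV⟩
  | succ d ih =>
    obtain ⟨ψ, h1, h2⟩ := ih
    obtain ⟨χ, h3, h4⟩ := idle h2
    exact ⟨χ, h1.trans h3, h4⟩

theorem step_req (hV : Valid en φ n) (N : ℕ) :
    ∃ (ψ : Part) (m : ℕ), φ.Le ψ ∧ n < m ∧ Valid en ψ m ∧
      ∀ O : Str → Bool, ψ.Ext O → Met en N n O := by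
  obtain ⟨m, hm2, hm3, hm4⟩ := ((pz_qN en N).and ((eventually_ge_atTop n).and
    (eventually_ge_atTop 2))).exists
  obtain ⟨ψ, hψ1, hψ2⟩ := idle_iter hV (m - n)
  have hmn : n + (m - n) = m := by omega
  rw [hmn] at hψ2
  obtain ⟨χ, m', h1, h2, h3, h4⟩ := diag hψ2 N hm4 hm2
  refine ⟨χ, m', hψ1.trans h1, by omega, h3, fun O hO => ?_⟩
  obtain ⟨l, hl, hl'⟩ := h4 O hO
  exact ⟨l, hm3.trans hl, hl'⟩

end Pool.Agent.LibSC59
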