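import Pool.Agent.LibSC59.Window
import Pool.Agent.LibPP83.Diag1

/-!
Every program errs on the complement of the test language, with any short advice: sizes.
-/

namespace Pool.Agent.LibSC59

open Finset Filter Classical Pool.Agent.LibNexp Pool.Agent.LibSpec4 Pool.Agent.LibPP83

variable {en : ℕ → Prog × ℕ} {φ : Part} {n : ℕ}

/-- At some length `n ≥ n0`, every advice of length at most `n - 2` is wrong for the program
number `N`. -/
def Met (en : ℕ → Prog × ℕ) (N n0 : ℕ) (O : Str → Bool) : Prop :=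
  ∃ n, n0 ≤ n ∧ ∀ v : Str, v.length + 2 ≤ n →
    ∃ x : Str, x.length = n ∧ ¬ (x ∉ WitLang O ↔ AccX en O N (pair x v))

theorem ex_mono (e : ℕ) : Monotone (ex e) := by
  intro a b hab
  unfold ex
  have h1 : a ^ (e / 2) ≤ b ^ (e / 2) := Nat.pow_le_pow_left hab _
  have h2 : 2 ^ (a / 20) ≤ 2 ^ (b / 20) :=
    Nat.pow_le_pow_right (by norm_num) (Nat.div_le_div_right hab)
  split_ifs <;> omega

/-- The last level of the window for program number `N`. -/
def qN (en : ℕ → Prog × ℕ) (N n : ℕ) : ℕ := ex (en N).2 (3 * n) + N + 3 * n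

theorem lvl_le {N : ℕ} {x v : Str} (hx : x.length = n) (hv : v.length + 2 ≤ n) :
    n ≤ lvl en (N, pair x v) ∧ lvl en (N, pair x v) ≤ qN en N n := by
  have h2 : (pair x v).length = 2 * n + v.length + 2 := by
    rw [length_pair, hx]
  have h3 : (pair x v).length ≤ 3 * n := by omega
  constructor
  · unfold lvl
    simp only
    omega
  · unfold lvl qN
    simp only
    have h4 := ex_mono (en N).2 h3
    omega

theorem le_qN (N : ℕ) : n ≤ qN en N n := by
  unfold qN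
  omega

theorem off_zero_eq (i : ℕ) : off 0 i + 1 = (i + 1) ^ 2 := by
  induction i with
  | zero =>
    rw [off_zero]
    norm_num
  | succ i ih =>
    have h1 := off_succ 0 i
    have h2 : bs 0 i = 2 * i + 3 := by
      unfold bs
      omega
    rw [h1, h2]
    have h3 : (i + 1 + 1) ^ 2 = (i + 1) ^ 2 + (2 * i + 3) := by ring
    omega

theorem pz_le (i : ℕ) : pz 0 i ≤ 24 * (i + 2) ^ 6 := by
  obtain ⟨s, hs⟩ : ∃ s, s = off 0 (i + 1) := ⟨_, rfl⟩
  obtain ⟨x, hx⟩ : ∃ x, x = i + 2 := ⟨_, rfl⟩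
  have h1 : s ≤ x ^ 2 := by
    have := off_zero_eq (i + 1)
    rw [hs, hx]
    have h2 : (i + 1 + 1) ^ 2 = (i + 2) ^ 2 := rfl
    omega
  have hx2 : 2 ≤ x := by omega
  have hxx : 2 * x ≤ x ^ 2 := by nlinarith
  have h4x : 4 ≤ x ^ 2 := by nlinarith
  have hg : gg 0 i ≤ 4 * x ^ 2 := by
    unfold gg
    rw [← hs]
    omega
  have hG : Gam 0 i ≤ 16 * x ^ 4 := by
    unfold Gam
    rw [← hs]
    calc 4 * (s * gg 0 i) ≤ 4 * (x ^ 2 * (4 * x ^ 2)) :=
          Nat.mul_le_mul_left _ (Nat.mul_le_mul h1 hg)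
      _ = 16 * x ^ 4 := by ring
  have h24 : x ^ 2 ≤ x ^ 4 := Nat.pow_le_pow_right (by omega) (by norm_num)
  have h46 : 4 * x ^ 4 ≤ x ^ 6 := by
    have h5 : x ^ 6 = x ^ 2 * x ^ 4 := by ring
    rw [h5]
    exact Nat.mul_le_mul_right _ h4x
  have hl : la 0 i ≤ 17 * x ^ 6 := by
    unfold la
    rw [← hs]
    calc (Gam 0 i + 2 * i + 3) * s ≤ (17 * x ^ 4) * x ^ 2 := by
          refine Nat.mul_le_mul ?_ h1
          omega
      _ = 17 * x ^ 6 := by ring
  unfold pz vs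
  rw [← hs, ← hx]
  omega

theorem eventually_poly {f : ℕ → ℕ} (hf : PolyB f) (hm : Monotone f) :
    ∀ᶠ n : ℕ in atTop, f n ≤ 2 ^ (n / 20) := by
  have h1 : PolyB fun m => f (20 * m + 20) :=
    PolyB.comp' hf (((PolyB.const 20).mul PolyB.id).add (PolyB.const 20))
  obtain ⟨m0, hm0⟩ := eventually_atTop.1 (PolyB.eventually_lt h1)
  filter_upwards [eventually_ge_atTop (20 * m0)] with n hn
  have h2 : m0 ≤ n / 20 := by omega
  have h3 := hm0 (n / 20) h2
  have h4 : f n ≤ f (20 * (n / 20) + 20) := hm (by omega)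
  have h5 : 2 ^ (n / 20 - 1) ≤ 2 ^ (n / 20) := Nat.pow_le_pow_right (by norm_num) (by omega)
  omega

theorem pz_qN (en : ℕ → Prog × ℕ) (N : ℕ) :
    ∀ᶠ n : ℕ in atTop, pz 0 (2 * qN en N n) < 2 ^ n := by
  have h1 : PolyB fun n : ℕ => (3 * n) ^ ((en N).2 / 2) + (en N).2 / 2 + N + 3 * n + 1 := by
    have h3 : PolyB fun n : ℕ => 3 * n := (PolyB.const 3).mul PolyB.id
    exact ((((h3.pow ((en N).2 / 2)).add (PolyB.const ((en N).2 / 2))).add
      (PolyB.const N)).add h3).add (PolyB.const 1)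
  have h2 : Monotone fun n : ℕ => (3 * n) ^ ((en N).2 / 2) + (en N).2 / 2 + N + 3 * n + 1 := by
    intro a b hab
    have h3 : (3 * a) ^ ((en N).2 / 2) ≤ (3 * b) ^ ((en N).2 / 2) :=
      Nat.pow_le_pow_left (by omega) _
    show (3 * a) ^ ((en N).2 / 2) + (en N).2 / 2 + N + 3 * a + 1 ≤
      (3 * b) ^ ((en N).2 / 2) + (en N).2 / 2 + N + 3 * b + 1
    omega
  filter_upwards [eventually_poly h1 h2, eventually_ge_atTop 200] with n h3 h4
  have h5 : 2 ^ (n / 20) ≤ 2 ^ (3 * n / 20) := Nat.pow_le_pow_right (by norm_num) (by omega)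
  have h6 : qN en N n + 1 ≤ 2 ^ (3 * n / 20 + 1) := by
    unfold qN ex
    rw [pow_succ]
    split_ifs <;> omega
  have h7 : (2 * qN en N n + 2) ^ 6 ≤ (2 ^ (3 * n / 20 + 2)) ^ 6 := by
    refine Nat.pow_le_pow_left ?_ 6
    rw [pow_succ]
    omega
  calc pz 0 (2 * qN en N n) ≤ 24 * (2 * qN en N n + 2) ^ 6 := pz_le _
    _ ≤ 2 ^ 5 * (2 ^ (3 * n / 20 + 2)) ^ 6 := Nat.mul_le_mul (by norm_num) h7
    _ = 2 ^ (5 + (3 * n / 20 + 2) * 6) := by rw [← pow_mul, ← pow_add]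
    _ < 2 ^ n := Nat.pow_lt_pow_right (by norm_num) (by omega)

end Pool.Agent.LibSC59
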