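import Pool.Agent.LibSC59.Limit
import Pool.Agent.LibPP83.Fin1

/-!
An oracle relative to which nondeterministic exponential time has polynomial size circuits, but
complements need almost as many bits of advice as the census.
-/

namespace Pool.Agent.LibSC59

open Finset Filter Classical Pool.Agent.LibNexp Pool.Agent.LibSpec4 Pool.Agent.LibBHN
open Pool.Agent.LibPP83

/-- Every language in doubly exponential time. -/
theorem exists_progX {O : List Bool → Bool} {B : Lang} {c : ℕ}
    (hB : NTime O (fun n => 2 ^ (2 ^ (n / 20) + n ^ c + c)) fun e : Fin 1 → List Bool =>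
      e 0 ∈ B) : ∃ p : Prog, ∀ z, z ∈ B ↔ Acc O p (2 ^ ex (2 * c + 1) z.length) z := by
  obtain ⟨p, hp⟩ := hB
  have he : ∀ m, ex (2 * c + 1) m = 2 ^ (m / 20) + m ^ c + c := by
    intro m
    unfold ex
    have h1 : (2 * c + 1) % 2 = 1 := by omega
    have h2 : (2 * c + 1) / 2 = c := by omega
    rw [h1, h2, if_pos rfl]
  refine ⟨p, fun z => ⟨fun hz => ?_, fun hz => ?_⟩⟩
  · obtain ⟨t, σ', ht, h⟩ := (hp fun _ => z).2 hz
    have hs : size (fun _ : Fin 1 => z) = z.length := by simp [size]
    rw [hs] at ht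
    rw [he]
    exact ⟨t, σ', ht, h⟩
  · obtain ⟨t, σ', -, h⟩ := hz
    exact (hp fun _ => z).1 _ _ h

theorem ex_even (c m : ℕ) : ex (2 * c) m = m ^ c + c := by
  unfold ex
  have h1 : (2 * c) % 2 ≠ 1 := by omega
  have h2 : (2 * c) / 2 = c := by omega
  rw [h2, if_neg h1, Nat.zero_add]

theorem main : ∃ O : Str → Bool,
    (∀ L ∈ NEXPLang O, ∃ (c : ℕ) (f : ℕ → Str), (∀ n, (f n).length ≤ n ^ c + c) ∧
      ∀ x, x ∈ L ↔ O (false :: pair (pair x (f x.length)) []) = true) ∧
    ∀ (B : Lang) (c : ℕ), NTime O (fun n => 2 ^ (2 ^ (n / 20) + n ^ c + c))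
        (fun e : Fin 1 → List Bool => e 0 ∈ B) →
      ∃ᶠ n in atTop, ∀ v : Str, v.length + 2 ≤ n →
        ∃ x : Str, x.length = n ∧ ¬ (x ∉ WitLang O ↔ pair x v ∈ B) := by
  obtain ⟨en, hen⟩ := exists_en
  obtain ⟨O, hO, hM⟩ := exists_oracle en
  choose κ hκ r hr hpg using hO
  refine ⟨O, fun L hL => ?_, ?_⟩
  · obtain ⟨p, c, hp⟩ := exists_prog hL
    obtain ⟨N, hN⟩ := hen (p, 2 * c)
    have hlev : PolyB fun m : ℕ => m ^ c + c + N + m :=
      (((PolyB.id.comp_pow c).add (PolyB.const N)).add PolyB.id)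
    have hf : PolyB fun m : ℕ => (List.replicate N true ++ false :: false ::
        pair (bt (κ (m ^ c + c + N + m))) (r (m ^ c + c + N + m))).length := by
      have h0 : PolyB fun m : ℕ => ell 0 (2 * (m ^ c + c + N + m)) :=
        PolyB.comp' (polyB_ell 0) ((PolyB.const 2).mul hlev)
      have h1 : PolyB fun m : ℕ => N + 2 + (2 * (m ^ c + c + N + m) +
          ell 0 (2 * (m ^ c + c + N + m)) + 2) :=
        ((PolyB.const N).add (PolyB.const 2)).add
          ((((PolyB.const 2).mul hlev).add h0).add (PolyB.const 2))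
      refine h1.mono fun m => ?_
      have h2 := length_bt (hκ (m ^ c + c + N + m))
      have h3 := hr (m ^ c + c + N + m)
      rw [List.length_append, List.length_cons, List.length_cons, length_pair,
        List.length_replicate, h3]
      omega
    obtain ⟨d, hd⟩ := hf
    refine ⟨d, fun m => List.replicate N true ++ false :: false ::
        pair (bt (κ (m ^ c + c + N + m))) (r (m ^ c + c + N + m)), hd, fun x => ?_⟩
    have hl : lvl en (N, x) = x.length ^ c + c + N + x.length := by
      unfold lvl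
      simp only [hN, ex_even]
    have h1 := hpg _ (N, x) hl
    unfold AccX at h1
    simp only [hN, ex_even] at h1
    rw [hp x, ← h1, pgs_eq]
  · intro B c hB
    obtain ⟨p, hp⟩ := exists_progX hB
    obtain ⟨N, hN⟩ := hen (p, 2 * c + 1)
    rw [frequently_atTop]
    intro n0
    obtain ⟨n, hn0, hn⟩ := hM N n0
    refine ⟨n, hn0, fun v hv => ?_⟩
    obtain ⟨x, hx, hne⟩ := hn v hv
    refine ⟨x, hx, fun h1 => hne ?_⟩
    have h2 : AccX en O N (pair x v) ↔ pair x v ∈ B := by
      unfold AccX
      simp only [hN]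
      exact (hp _).symm
    exact h1.trans h2.symm

end Pool.Agent.LibSC59
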