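import Pool.Agent.LibSC59.Diag

/-!
The oracle.
-/

namespace Pool.Agent.LibSC59

open Finset Filter Classical Pool.Agent.LibNexp Pool.Agent.LibSpec4 Pool.Agent.LibPP83

theorem valid_init (en : ℕ → Prog × ℕ) :
    Valid en ⟨∅, ∅, Finset.Subset.refl _⟩ 0 := by
  refine ⟨?_, ?_, ?_, ?_⟩
  · intro τ hτ
    exact absurd hτ (Nat.not_lt_zero _)
  · intro i hi
    exact absurd hi (Nat.not_lt_zero _)
  · rw [Finset.filter_empty, Finset.card_empty]
    exact Nat.zero_le _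
  · intro z hz
    exact absurd hz (Finset.notMem_empty _)

theorem limit_le_of_le {φ : ℕ → Part} (h : ∀ t, (φ t).Le (φ (t + 1))) {s t : ℕ} (hst : s ≤ t) :
    (φ s).Le (φ t) := by
  induction t, hst using Nat.le_induction with
  | base => exact ⟨Finset.Subset.refl _, fun _ _ => Iff.rfl⟩
  | succ n _ ih => exact ih.trans (h n)

/-- A growing sequence of partial oracles has a common extension. -/
theorem exists_ext {φ : ℕ → Part} (h : ∀ t, (φ t).Le (φ (t + 1))) :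
    ∃ O : Str → Bool, ∀ t, (φ t).Ext O := by
  refine ⟨fun z => decide (∃ t, z ∈ (φ t).Y), fun t z hz => ?_⟩
  rw [decide_eq_true_iff]
  constructor
  · rintro ⟨s, hs⟩
    rcases Nat.le_total s t with hst | hst
    · exact ((limit_le_of_le h hst).2 z ((φ s).sub hs)).2 hs
    · exact ((limit_le_of_le h hst).2 z hz).1 hs
  · intro hY
    exact ⟨t, hY⟩

theorem exists_oracle (en : ℕ → Prog × ℕ) : ∃ O : Str → Bool,
    (∀ i, ∃ κ < 2 ^ i, ∃ r : Str, r.length = ell 0 (2 * i) ∧ ∀ τ, lvl en τ = i →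
      (O (pgs r κ τ) = true ↔ AccX en O τ.1 τ.2)) ∧ ∀ N n0, Met en N n0 O := by
  have hstep : ∀ (N : ℕ) (a : {a : Part × ℕ // Valid en a.1 a.2}),
      ∃ b : {a : Part × ℕ // Valid en a.1 a.2}, a.1.1.Le b.1.1 ∧ a.1.2 < b.1.2 ∧
        ∀ O : Str → Bool, b.1.1.Ext O → Met en (Nat.unpair N).1 a.1.2 O := by
    rintro N ⟨⟨φ, n⟩, hV⟩
    obtain ⟨ψ, m, h1, h2, h3, h4⟩ := step_req hV (Nat.unpair N).1
    exact ⟨⟨(ψ, m), h3⟩, h1, h2, h4⟩
  choose f hf using hstep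
  let F : ℕ → {a : Part × ℕ // Valid en a.1 a.2} := fun t =>
    Nat.rec ⟨(⟨∅, ∅, Finset.Subset.refl _⟩, 0), valid_init en⟩ (fun N a => f N a) t
  have hF : ∀ t, F (t + 1) = f t (F t) := fun t => rfl
  have hle : ∀ t, (F t).1.1.Le (F (t + 1)).1.1 := fun t => by
    rw [hF]
    exact (hf t (F t)).1
  have hlt : ∀ t, t ≤ (F t).1.2 := by
    intro t
    induction t with
    | zero => exact Nat.zero_le _
    | succ n ih =>
      rw [hF]
      exact lt_of_le_of_lt ih (hf n (F n)).2.1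
  obtain ⟨O, hO⟩ := exists_ext (φ := fun t => (F t).1.1) hle
  refine ⟨O, fun i => ?_, fun N n0 => ?_⟩
  · obtain ⟨κ, hκ, r, hr, hp⟩ := (F (i + 1)).2.page i (hlt (i + 1))
    exact ⟨κ, hκ, r, hr, hp O (hO (i + 1))⟩
  · have h1 := hO (Nat.pair N n0 + 1)
    simp only [hF] at h1
    obtain ⟨n, hn, h2⟩ := (hf _ (F (Nat.pair N n0))).2.2 O h1
    rw [Nat.unpair_pair] at h2
    exact ⟨n, le_trans (Nat.right_le_pair N n0) (le_trans (hlt _) hn), h2⟩

end Pool.Agent.LibSC59
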