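import Pool.Agent.LibSC59.Win

/-!
The partial oracle after a window.
-/

namespace Pool.Agent.LibSC59

open Finset Classical Pool.Agent.LibNexp Pool.Agent.LibSpec4 Pool.Agent.LibPP83

/-- The data chosen for the world `κ`. -/
structure Choice (en : ℕ → Prog × ℕ) (φ : Part) (n q J : ℕ) (E : Set Str)
    (σ : ℕ × Str → ℕ) (Z : Finset Str) (fam : ℕ × Str → List (Term Str)) (κ : ℕ)
    (ch : ℕ × Str → Term Str) (w : ℕ → Str) : Prop where
  out : (win en φ n q J).Out E σ Z fam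
  le : κ ≤ J
  term : ∀ τ ∈ tasksOf en n q, σ τ ≤ κ → ch τ ∈ Dt en τ ∧ (win en φ n q J).Kd κ (ch τ) ∧
    (win en φ n q J).Con E (ch τ) ∧ Disjoint ((win en φ n q J).PX (ch τ)) Z
  disj : ∀ τ ∈ tasksOf en n q, σ τ ≤ κ → ∀ τ' ∈ tasksOf en n q, σ τ' ≤ κ →
    Disjoint ((win en φ n q J).PX (ch τ)) (ch τ').2
  fresh : ∀ κ', 1 ≤ κ' → κ' ≤ κ → w κ' ∈ Wk n κ' ∧ w κ' ∉ Z ∧
    ∀ τ ∈ tasksOf en n q, σ τ ≤ κ → w κ' ∉ (ch τ).2

/-- The strings decided after the window. -/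
noncomputable def newD (en : ℕ → Prog × ℕ) (φ : Part) (n q J : ℕ)
    (σ : ℕ × Str → ℕ) (Z : Finset Str) (κ : ℕ) (ch : ℕ × Str → Term Str) : Finset Str :=
  φ.D ∪ WP en n q J ∪ (Icc 1 J).biUnion (Wk n) ∪ Z ∪
    ((tasksOf en n q).filter fun τ => σ τ ≤ κ).biUnion fun τ => (ch τ).1 ∪ (ch τ).2

/-- The ones after the window. -/
noncomputable def newY (en : ℕ → Prog × ℕ) (φ : Part) (n q J : ℕ) (E : Set Str)
    (σ : ℕ × Str → ℕ) (κ : ℕ) (ch : ℕ × Str → Term Str) (w : ℕ → Str) : Finset Str :=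
  φ.Y ∪ ((WP en n q J).filter fun z => z ∈ E) ∪
    (((tasksOf en n q).filter fun τ => σ τ ≤ κ).biUnion fun τ =>
      (win en φ n q J).PX (ch τ)) ∪ (Icc 1 κ).image w

/-- The partial oracle after the window. -/
noncomputable def newPart (en : ℕ → Prog × ℕ) (φ : Part) (n q J : ℕ) (E : Set Str)
    (σ : ℕ × Str → ℕ) (Z : Finset Str) (κ : ℕ) (ch : ℕ × Str → Term Str) (w : ℕ → Str) :
    Part where
  D := newD en φ n q J σ Z κ ch
  Y := newY en φ n q J E σ κ ch w ∩ newD en φ n q J σ Z κ ch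
  sub := inter_subset_right

variable {en : ℕ → Prog × ℕ} {φ : Part} {n q J : ℕ} {E : Set Str} {σ : ℕ × Str → ℕ}
  {Z : Finset Str} {fam : ℕ × Str → List (Term Str)} {κ : ℕ} {ch : ℕ × Str → Term Str}
  {w : ℕ → Str}

/-- The possible witness strings are free. -/
theorem Wk_free (hV : Valid en φ n) (hn : 1 ≤ n) {κ' : ℕ} {z : Str} (hz : z ∈ Wk n κ') :
    z ∈ (win en φ n q J).Free := by
  obtain ⟨v, hv, rfl⟩ := mem_Wk.1 hz
  have hx : (xs n (κ' - 1)).length = n := length_xs hn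
  refine ⟨fun h => ?_, fun h => ?_⟩
  · have h1 : xs n (κ' - 1) ++ v = true :: (dg (n - 1) (κ' - 1) ++ v) := rfl
    rw [h1] at h
    have h2 := hV.short _ h
    rw [← h1, List.length_append, hx, hv] at h2
    exact lt_irrefl _ h2
  · obtain ⟨r, κ, τ, _, _, _, h1⟩ := mem_WP.1 h
    have h2 : xs n (κ' - 1) ++ v = true :: (dg (n - 1) (κ' - 1) ++ v) := rfl
    rw [h2] at h1
    exact pgs_ne_true _ _ _ _ h1

/-- Ones on the pages: they are page strings of the window, not in the old domain. -/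
theorem ones_WP (ho : (win en φ n q J).Out E σ Z fam) {z : Str} (hz : z ∈ E) :
    z ∈ WP en n q J ∧ z ∉ φ.D := by
  obtain ⟨r, κ, τ, hκ, hτ, hr, rfl⟩ := ho.ones z hz
  have hr' : r ∈ (strs (ell 0 (2 * lvl en τ))).filter
      (fun r => ∀ κ' τ', 2 * lvl en τ' = 2 * lvl en τ → pgs r κ' τ' ∉ φ.D) := hr
  rw [mem_filter] at hr'
  exact ⟨mem_WP.2 ⟨r, κ, τ, hτ, hκ, mem_strs.1 hr'.1, rfl⟩, hr'.2 κ τ rfl⟩

theorem new_w_mem (hc : Choice en φ n q J E σ Z fam κ ch w) {κ' : ℕ} (h1 : 1 ≤ κ')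
    (h2 : κ' ≤ J) {z : Str} (hz : z ∈ Wk n κ') : z ∈ newD en φ n q J σ Z κ ch := by
  have _ := hc.le
  unfold newD
  simp only [mem_union, mem_biUnion, mem_Icc]
  exact Or.inl (Or.inl (Or.inr ⟨κ', ⟨h1, h2⟩, hz⟩))

theorem new_ch_mem {τ : ℕ × Str} (hτ : τ ∈ tasksOf en n q) (hσ : σ τ ≤ κ) {z : Str}
    (hz : z ∈ (ch τ).1 ∨ z ∈ (ch τ).2) : z ∈ newD en φ n q J σ Z κ ch := by
  unfold newD
  simp only [mem_union, mem_biUnion, mem_filter]
  exact Or.inr ⟨τ, ⟨hτ, hσ⟩, hz⟩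

theorem new_WP_mem {z : Str} (hz : z ∈ WP en n q J) : z ∈ newD en φ n q J σ Z κ ch := by
  unfold newD
  simp only [mem_union]
  exact Or.inl (Or.inl (Or.inl (Or.inr hz)))

theorem new_D_mem {z : Str} (hz : z ∈ φ.D) : z ∈ newD en φ n q J σ Z κ ch := by
  unfold newD
  simp only [mem_union]
  exact Or.inl (Or.inl (Or.inl (Or.inl hz)))

theorem new_Z_mem {z : Str} (hz : z ∈ Z) : z ∈ newD en φ n q J σ Z κ ch := by
  unfold newD
  simp only [mem_union]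
  exact Or.inl (Or.inr hz)

theorem new_PX_fst {z : Str} {t : Term Str} (hz : z ∈ (win en φ n q J).PX t) :
    z ∈ t.1 ∧ z ∉ φ.D ∧ z ∉ WP en n q J := by
  unfold Par.PX at hz
  rw [mem_filter] at hz
  exact ⟨hz.1, hz.2⟩

theorem mem_newY (hV : Valid en φ n) (hn : J = 0 ∨ 1 ≤ n)
    (hc : Choice en φ n q J E σ Z fam κ ch w) {z : Str} :
    z ∈ (newPart en φ n q J E σ Z κ ch w).Y ↔ z ∈ φ.Y ∨ z ∈ E ∨
      (∃ τ ∈ tasksOf en n q, σ τ ≤ κ ∧ z ∈ (win en φ n q J).PX (ch τ)) ∨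
      ∃ κ', 1 ≤ κ' ∧ κ' ≤ κ ∧ z = w κ' := by
  have _ := hV
  have _ := hn
  show z ∈ newY en φ n q J E σ κ ch w ∩ newD en φ n q J σ Z κ ch ↔ _
  rw [mem_inter]
  constructor
  · rintro ⟨h, _⟩
    unfold newY at h
    simp only [mem_union, mem_filter, mem_biUnion, mem_image, mem_Icc] at h
    rcases h with ((h | h) | h) | h
    · exact Or.inl h
    · exact Or.inr (Or.inl h.2)
    · obtain ⟨τ, hτ, hz⟩ := h
      exact Or.inr (Or.inr (Or.inl ⟨τ, hτ.1, hτ.2, hz⟩))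
    · obtain ⟨κ', hκ', hz⟩ := h
      exact Or.inr (Or.inr (Or.inr ⟨κ', hκ'.1, hκ'.2, hz.symm⟩))
  · intro h
    unfold newY
    simp only [mem_union, mem_filter, mem_biUnion, mem_image, mem_Icc]
    rcases h with h | h | ⟨τ, hτ, hσ, hz⟩ | ⟨κ', h1, h2, rfl⟩
    · exact ⟨Or.inl (Or.inl (Or.inl h)), new_D_mem (φ.sub h)⟩
    · have h1 := ones_WP hc.out h
      exact ⟨Or.inl (Or.inl (Or.inr ⟨h1.1, h⟩)), new_WP_mem h1.1⟩
    · exact ⟨Or.inl (Or.inr ⟨τ, ⟨hτ, hσ⟩, hz⟩), new_ch_mem hτ hσ (Or.inl (new_PX_fst hz).1)⟩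
    · exact ⟨Or.inr ⟨κ', ⟨h1, h2⟩, rfl⟩,
        new_w_mem hc h1 (h2.trans hc.le) (hc.fresh κ' h1 h2).1⟩

theorem new_w_free (hV : Valid en φ n) (hn : J = 0 ∨ 1 ≤ n)
    (hc : Choice en φ n q J E σ Z fam κ ch w) {κ' : ℕ} (h1 : 1 ≤ κ') (h2 : κ' ≤ κ) :
    w κ' ∈ (win en φ n q J).Free := by
  have h3 := hc.le
  have h4 : 1 ≤ n := by
    rcases hn with h | h
    · omega
    · exact h
  exact Wk_free hV h4 (hc.fresh κ' h1 h2).1

/-- What is not free: only the old ones and the ones on the pages. -/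
theorem mem_newY_of_not_free (hV : Valid en φ n) (hn : J = 0 ∨ 1 ≤ n)
    (hc : Choice en φ n q J E σ Z fam κ ch w) {z : Str}
    (hz : z ∉ (win en φ n q J).Free) :
    z ∈ (newPart en φ n q J E σ Z κ ch w).Y ↔ z ∈ φ.Y ∨ z ∈ E := by
  rw [mem_newY hV hn hc]
  constructor
  · rintro (h | h | ⟨τ, _, _, h⟩ | ⟨κ', h1, h2, rfl⟩)
    · exact Or.inl h
    · exact Or.inr h
    · exact absurd (new_PX_fst h).2 hz
    · exact absurd (new_w_free hV hn hc h1 h2) hz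
  · rintro (h | h)
    · exact Or.inl h
    · exact Or.inr (Or.inl h)

theorem new_le (hV : Valid en φ n) (hn : J = 0 ∨ 1 ≤ n)
    (hc : Choice en φ n q J E σ Z fam κ ch w) :
    φ.Le (newPart en φ n q J E σ Z κ ch w) := by
  refine ⟨fun z hz => new_D_mem hz, fun z hz => ?_⟩
  rw [mem_newY_of_not_free hV hn hc (fun h => h.1 hz)]
  constructor
  · rintro (h | h)
    · exact h
    · exact absurd hz (ones_WP hc.out h).2
  · exact Or.inl

theorem new_world (hV : Valid en φ n) (hn : J = 0 ∨ 1 ≤ n ∧ J ≤ 2 ^ (n - 1))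
    (hc : Choice en φ n q J E σ Z fam κ ch w) {O : Str → Bool}
    (hO : (newPart en φ n q J E σ Z κ ch w).Ext O) :
    (win en φ n q J).InWorld E σ Z κ ch {z | O z = true} := by
  have hn' : J = 0 ∨ 1 ≤ n := hn.imp_right And.left
  have hO' : ∀ z ∈ newD en φ n q J σ Z κ ch,
      (O z = true ↔ z ∈ (newPart en φ n q J E σ Z κ ch w).Y) := hO
  -- a free string is a one only if it belongs to a chosen term or is a witness string
  have key : ∀ z, z ∈ (win en φ n q J).Free → z ∈ newD en φ n q J σ Z κ ch → O z = true →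
      (∃ τ ∈ tasksOf en n q, σ τ ≤ κ ∧ z ∈ (win en φ n q J).PX (ch τ)) ∨
        ∃ κ', 1 ≤ κ' ∧ κ' ≤ κ ∧ z = w κ' := by
    intro z hf hz hOz
    rcases (mem_newY hV hn' hc).1 ((hO' z hz).1 hOz) with h | h | h | h
    · exact absurd (φ.sub h) hf.1
    · exact absurd (ones_WP hc.out h).1 hf.2
    · exact Or.inl h
    · exact Or.inr h
  refine ⟨?_, ?_, ?_, ?_, ?_⟩
  · intro z hz
    have h1 : z ∈ newD en φ n q J σ Z κ ch := by
      by_cases h : z ∈ φ.D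
      · exact new_D_mem h
      · by_cases h2 : z ∈ WP en n q J
        · exact new_WP_mem h2
        · exact absurd ⟨h, h2⟩ hz
    show O z = true ↔ z ∈ φ.Y ∨ z ∈ E
    rw [hO' z h1, mem_newY_of_not_free hV hn' hc hz]
  · intro τ hτ hσ z hz
    show O z = true
    rw [hO' z (new_ch_mem hτ hσ (Or.inl (new_PX_fst hz).1)), mem_newY hV hn' hc]
    exact Or.inr (Or.inr (Or.inl ⟨τ, hτ, hσ, hz⟩))
  · intro τ hτ hσ z hz hf hOz
    rcases key z hf (new_ch_mem hτ hσ (Or.inr hz)) hOz with ⟨τ', hτ', hσ', h⟩ | ⟨κ', h1, h2, rfl⟩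
    · exact (Finset.disjoint_left.1 (hc.disj τ' hτ' hσ' τ hτ hσ) h) hz
    · exact (hc.fresh κ' h1 h2).2.2 τ hτ hσ hz
  · intro z hz hOz
    rcases key z (hc.out.zfree z hz) (new_Z_mem hz) hOz with ⟨τ', hτ', hσ', h⟩ | ⟨κ', h1, h2, rfl⟩
    · exact (Finset.disjoint_left.1 (hc.term τ' hτ' hσ').2.2.2 h) hz
    · exact (hc.fresh κ' h1 h2).2.1 hz
  · intro z hf hk hOz
    have hk' : κ < kv n J z := hk
    have h0 : 0 < kv n J z := by omega
    obtain ⟨h1, h2⟩ := kv_pos h0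
    have hJn : J ≤ 2 ^ (n - 1) := by
      rcases hn with h | h
      · omega
      · exact h.2
    rcases key z hf (new_w_mem hc h0 h1 h2) hOz with ⟨τ', hτ', hσ', h⟩ | ⟨κ', h3, h4, rfl⟩
    · have h5 : kv n J z ≤ κ := (hc.term τ' hτ' hσ').2.1 z h
      omega
    · have h5 : kv n J (w κ') = κ' :=
        kv_eq hJn h3 (h4.trans hc.le) (hc.fresh κ' h3 h4).1
      omega

end Pool.Agent.LibSC59
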