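import Pool.Agent.LibPP83.Core

/-!
Tasks with kinds: the construction of a window with the pairs (task, kind) as tasks and only one
kind gives the result for the tasks, for any number of kinds.
-/

namespace Pool.Agent.LibSC59

open Finset Classical Pool.Agent.LibPP83

variable {S T R : Type}

/-- The pairs (task, kind) as tasks. -/
noncomputable def prs (p : Par S T R) (pg' : R → ℕ → T × ℕ → S) : Par S (T × ℕ) R where
  n := p.n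
  q := p.q
  J := 0
  tasks := p.tasks ×ˢ range (p.J + 1)
  lev := fun τ => p.lev τ.1
  D := fun τ => {t | t ∈ p.D τ.1 ∧ p.Kd τ.2 t}
  sz := p.sz
  nt := p.nt
  pg := pg'
  Av := p.Av
  Free := p.Free
  kv := fun _ => 0
  Y := p.Y
  lv := p.lv
  kd := fun _ => 0
  typ := p.typ
  bp := p.bp
  A := p.A
  u := p.u
  lam := p.lam
  β := p.β
  θ := p.θ
  dep := p.dep
  M := p.M

variable {p : Par S T R} {pg' : R → ℕ → T × ℕ → S}

theorem mem_prs {τ : T} {κ : ℕ} : (τ, κ) ∈ (prs p pg').tasks ↔ τ ∈ p.tasks ∧ κ ≤ p.J := by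
  show (τ, κ) ∈ p.tasks ×ˢ range (p.J + 1) ↔ _
  rw [mem_product, mem_range, Nat.lt_succ_iff]

theorem mem_prsD {τ : T} {κ : ℕ} {t : Term S} :
    t ∈ (prs p pg').D (τ, κ) ↔ t ∈ p.D τ ∧ p.Kd κ t := Iff.rfl

theorem prs_mono (hM : 1 ≤ p.M) {E : Set S} {σ' : T × ℕ → ℕ} {Z : Finset S}
    {fam' : T × ℕ → List (Term S)} (ho : (prs p pg').Out E σ' Z fam') {τ : T} (hτ : τ ∈ p.tasks)
    {κ κ' : ℕ} (hκ : κ ≤ κ') (hκ' : κ' ≤ p.J) (h : σ' (τ, κ) ≤ 0) : σ' (τ, κ') ≤ 0 := by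
  by_contra hcon
  push Not at hcon
  have hm : (τ, κ) ∈ (prs p pg').tasks := mem_prs.2 ⟨hτ, hκ.trans hκ'⟩
  have h1 : p.M ≤ (fam' (τ, κ)).length := ho.fam_len _ hm h
  have h2 : 4 * ((fam' (τ, κ)).filter fun t => ¬ p.Con E t ∨ ¬ Disjoint (p.PX t) Z).length ≤
      (fam' (τ, κ)).length := ho.fam_bad _ hm h
  have h3 : ∃ t ∈ fam' (τ, κ), p.Con E t ∧ Disjoint (p.PX t) Z := by
    by_contra h4
    push Not at h4
    have h5 : ((fam' (τ, κ)).filter fun t => ¬ p.Con E t ∨ ¬ Disjoint (p.PX t) Z) =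
        fam' (τ, κ) := by
      rw [List.filter_eq_self]
      intro t ht
      have h6 := h4 t ht
      rw [decide_eq_true_iff]
      by_cases h7 : p.Con E t
      · exact Or.inr (h6 h7)
      · exact Or.inl h7
    rw [h5] at h2
    omega
  obtain ⟨t, ht, hc, hd⟩ := h3
  have h4 : t ∈ p.D τ ∧ p.Kd κ t := (ho.fam_mem _ hm h t ht).1
  exact ho.dead (τ, κ') (mem_prs.2 ⟨hτ, hκ'⟩) 0 (le_refl 0) hcon t
    ⟨h4.1, fun z hz => (h4.2 z hz).trans hκ⟩ (fun z _ => le_refl 0) hc hd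

/-- The status of a task. -/
noncomputable def sts (p : Par S T R) (σ' : T × ℕ → ℕ) (τ : T) : ℕ :=
  if hc : ∃ κ ≤ p.J, σ' (τ, κ) ≤ 0 then Nat.find hc else p.J + 1

theorem sts_le (hM : 1 ≤ p.M) {E : Set S} {σ' : T × ℕ → ℕ} {Z : Finset S}
    {fam' : T × ℕ → List (Term S)} (ho : (prs p pg').Out E σ' Z fam') {τ : T} (hτ : τ ∈ p.tasks)
    {κ : ℕ} (hκ : κ ≤ p.J) : sts p σ' τ ≤ κ ↔ σ' (τ, κ) ≤ 0 := by
  unfold sts
  by_cases hc : ∃ κ ≤ p.J, σ' (τ, κ) ≤ 0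
  · rw [dif_pos hc]
    constructor
    · intro h1
      exact prs_mono hM ho hτ h1 hκ (Nat.find_spec hc).2
    · intro h1
      exact Nat.find_min' hc ⟨hκ, h1⟩
  · rw [dif_neg hc]
    constructor
    · intro h1
      omega
    · intro h1
      exact absurd ⟨κ, hκ, h1⟩ hc

theorem out_prs (hpg : ∀ r κ τ, κ ≤ p.J → pg' r 0 (τ, κ) = p.pg r κ τ) (hM : 1 ≤ p.M)
    {E : Set S} {σ' : T × ℕ → ℕ} {Z : Finset S} {fam' : T × ℕ → List (Term S)}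
    (ho : (prs p pg').Out E σ' Z fam') : ∃ (σ : T → ℕ) (fam : T → List (Term S)),
    p.Out E σ Z fam := by
  have hst : ∀ τ ∈ p.tasks, ∀ κ ≤ p.J, sts p σ' τ ≤ κ ↔ σ' (τ, κ) ≤ 0 :=
    fun τ hτ κ hκ => sts_le hM ho hτ hκ
  have hm : ∀ τ ∈ p.tasks, sts p σ' τ ≤ p.J → (τ, sts p σ' τ) ∈ (prs p pg').tasks ∧
      σ' (τ, sts p σ' τ) ≤ 0 :=
    fun τ hτ hσ => ⟨mem_prs.2 ⟨hτ, hσ⟩, (hst τ hτ _ hσ).1 le_rfl⟩
  refine ⟨sts p σ', fun τ => fam' (τ, sts p σ' τ), ?_⟩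
  refine
    { ones := ?_
      pages := ?_
      zfree := ho.zfree
      zterm := ?_
      zcard := ho.zcard
      dead := ?_
      fam_mem := ?_
      fam_len := fun τ hτ hσ => ho.fam_len _ (hm τ hτ hσ).1 (hm τ hτ hσ).2
      fam_pw := fun τ hτ hσ => ho.fam_pw _ (hm τ hτ hσ).1 (hm τ hτ hσ).2
      fam_bad := fun τ hτ hσ => ho.fam_bad _ (hm τ hτ hσ).1 (hm τ hτ hσ).2
      fam_pop := fun τ hτ hσ => ho.fam_pop _ (hm τ hτ hσ).1 (hm τ hτ hσ).2 }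
  · intro z hz
    obtain ⟨r, κ0, ⟨τ, κ⟩, h1, h2, h3, h4⟩ := ho.ones z hz
    obtain rfl : κ0 = 0 := Nat.le_zero.1 h1
    obtain ⟨h5, h6⟩ := mem_prs.1 h2
    exact ⟨r, κ, τ, h6, h5, h3, h4.trans (hpg r κ τ h6)⟩
  · intro i hn hq
    obtain ⟨r, hr, h1⟩ := ho.pages i hn hq
    refine ⟨r, hr, fun κ hκ τ hτ => ?_⟩
    have hτ' : τ ∈ p.tasks ∧ p.lev τ = i := by
      unfold Par.tl at hτ
      rw [mem_filter] at hτ
      exact hτ
    have h2 : (τ, κ) ∈ (prs p pg').tl i := by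
      unfold Par.tl
      rw [mem_filter]
      exact ⟨mem_prs.2 ⟨hτ'.1, hκ⟩, hτ'.2⟩
    have h3 := h1 0 (le_refl 0) (τ, κ) h2
    rw [hst τ hτ'.1 κ hκ, ← h3, ← hpg r κ τ hκ]
    exact Iff.rfl
  · intro z hz
    obtain ⟨⟨τ, κ⟩, h1, t, h2, h3⟩ := ho.zterm z hz
    exact ⟨τ, (mem_prs.1 h1).1, t, h2.1, h3⟩
  · intro τ hτ κ hκ hlt t ht hk hcon
    have h1 : ¬ σ' (τ, κ) ≤ 0 := fun h => by
      have := (hst τ hτ κ hκ).2 h
      omega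
    exact ho.dead (τ, κ) (mem_prs.2 ⟨hτ, hκ⟩) 0 (le_refl 0) (not_le.1 h1) t ⟨ht, hk⟩
      (fun z _ => le_refl 0) hcon
  · intro τ hτ hσ t ht
    exact (ho.fam_mem _ (hm τ hτ hσ).1 (hm τ hτ hσ).2 t ht).1

end Pool.Agent.LibSC59
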