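import Pool.Agent.LibPP83.Str

/-!
Strings of pages, tasks, terms of a task.
-/

namespace Pool.Agent.LibSC59

open Finset Classical Pool.Agent.LibNexp Pool.Agent.LibSpec4
open Pool.Agent.LibPP83 (Term Str acc_use_le add_two_pow_le)

/-- The string of a page: location `r`, number `κ'`, task `τ` with kind `κ`. -/
def pgf (r : Str) (κ' : ℕ) (τ : (ℕ × Str) × ℕ) : Str :=
  false :: pair (pair τ.1.2 (List.replicate τ.1.1 true ++ false ::
    (List.replicate κ' true ++ false :: pair (bt τ.2) r))) []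

theorem pgf_injective {r r' : Str} {κ κ' : ℕ} {τ τ' : (ℕ × Str) × ℕ}
    (h : pgf r κ τ = pgf r' κ' τ') : r = r' ∧ κ = κ' ∧ τ = τ' := by
  unfold pgf at h
  have h1 := (List.cons.inj h).2
  obtain ⟨h2, -⟩ := pair_injective h1
  obtain ⟨h3, h4⟩ := pair_injective h2
  obtain ⟨h5, h6⟩ := Pool.Agent.LibSpec4.unary_injective h4
  obtain ⟨h7, h8⟩ := Pool.Agent.LibSpec4.unary_injective h6
  obtain ⟨h9, h10⟩ := pair_injective h8
  exact ⟨h10, h7, Prod.ext (Prod.ext h5 h3) (bt_injective h9)⟩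

/-- The string of a page: location `r`, kind `κ`, task `τ`. -/
def pgs (r : Str) (κ : ℕ) (τ : ℕ × Str) : Str := pgf r 0 (τ, κ)

theorem pgs_injective {r r' : Str} {κ κ' : ℕ} {τ τ' : ℕ × Str} (h : pgs r κ τ = pgs r' κ' τ') :
    r = r' ∧ κ = κ' ∧ τ = τ' := by
  obtain ⟨h1, -, h2⟩ := pgf_injective h
  exact ⟨h1, congrArg Prod.snd h2, congrArg Prod.fst h2⟩

theorem pgs_eq (r : Str) (κ : ℕ) (τ : ℕ × Str) : pgs r κ τ =
    false :: pair (pair τ.2 (List.replicate τ.1 true ++ false :: false :: pair (bt κ) r)) [] := by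
  unfold pgs pgf
  rfl

theorem pgs_ne_true (r : Str) (κ : ℕ) (τ : ℕ × Str) (z : Str) : true :: z ≠ pgs r κ τ := by
  rw [pgs_eq]
  intro h
  exact absurd (List.cons.inj h).1 (by decide)

/-- Exponents of the running times: number `2c`: polynomials, number `2c+1`: exponential
functions. -/
def ex (e m : ℕ) : ℕ := (if e % 2 = 1 then 2 ^ (m / 20) else 0) + m ^ (e / 2) + e / 2

/-- Program number `N` accepts `x` in its time. -/
def AccX (en : ℕ → Prog × ℕ) (O : Str → Bool) (N : ℕ) (x : Str) : Prop :=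
  Acc O (en N).1 (2 ^ ex (en N).2 x.length) x

/-- The level of a task. -/
def lvl (en : ℕ → Prog × ℕ) (τ : ℕ × Str) : ℕ := ex (en τ.1).2 τ.2.length + τ.1 + τ.2.length

/-- The terms of a task. -/
def Dt (en : ℕ → Prog × ℕ) (τ : ℕ × Str) : Set (Term Str) :=
  {t | Disjoint t.1 t.2 ∧ t.1.card + t.2.card ≤ 2 ^ lvl en τ ∧
    (∀ z, z ∈ t.1 ∨ z ∈ t.2 → z.length ≤ 2 ^ lvl en τ) ∧
    ∀ O : Str → Bool, (∀ z ∈ t.1, O z = true) → (∀ z ∈ t.2, O z = false) →
      AccX en O τ.1 τ.2}

theorem exists_term {en : ℕ → Prog × ℕ} {O : Str → Bool} {τ : ℕ × Str}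
    (h : AccX en O τ.1 τ.2) :
    ∃ t ∈ Dt en τ, (∀ z ∈ t.1, O z = true) ∧ ∀ z ∈ t.2, O z = false := by
  obtain ⟨Q, hQ, hQl, hQ2⟩ := acc_use_le (show Acc O (en τ.1).1
    (2 ^ ex (en τ.1).2 τ.2.length) τ.2 from h)
  have hT : 2 ^ ex (en τ.1).2 τ.2.length ≤ 2 ^ lvl en τ := by
    refine Nat.pow_le_pow_right (by norm_num) ?_
    unfold lvl
    omega
  have hT2 : τ.2.length + 2 ^ ex (en τ.1).2 τ.2.length ≤ 2 ^ lvl en τ := by
    refine le_trans (add_two_pow_le _ _) (Nat.pow_le_pow_right (by norm_num) ?_)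
    unfold lvl
    omega
  refine ⟨(Q.filter fun s => O s = true, Q.filter fun s => O s = false),
    ⟨?_, ?_, ?_, ?_⟩, ?_, ?_⟩
  · rw [Finset.disjoint_left]
    intro s hs hs'
    have h1 := (Finset.mem_filter.1 hs).2
    have h2 := (Finset.mem_filter.1 hs').2
    rw [h1] at h2
    exact absurd h2 (by decide)
  · have hd : Disjoint (Q.filter fun s => O s = true) (Q.filter fun s => O s = false) := by
      rw [Finset.disjoint_left]
      intro s hs hs'
      have h1 := (Finset.mem_filter.1 hs).2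
      have h2 := (Finset.mem_filter.1 hs').2
      rw [h1] at h2
      exact absurd h2 (by decide)
    show (Q.filter fun s => O s = true).card + (Q.filter fun s => O s = false).card ≤ _
    rw [← Finset.card_union_of_disjoint hd]
    refine le_trans (Finset.card_le_card (Finset.union_subset (Finset.filter_subset _ _)
      (Finset.filter_subset _ _))) (le_trans hQ hT)
  · rintro z (hz | hz)
    · exact le_trans (hQl z (Finset.mem_filter.1 hz).1) hT2
    · exact le_trans (hQl z (Finset.mem_filter.1 hz).1) hT2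
  · intro O' h1 h2
    refine hQ2 O' fun s hs => ?_
    rcases hb : O s with _ | _
    · exact h2 s (Finset.mem_filter.2 ⟨hs, hb⟩)
    · exact h1 s (Finset.mem_filter.2 ⟨hs, hb⟩)
  · intro z hz
    exact (Finset.mem_filter.1 hz).2
  · intro z hz
    exact (Finset.mem_filter.1 hz).2

/-- The tasks with levels between `n` and `q`. -/
noncomputable def tasksOf (en : ℕ → Prog × ℕ) (n q : ℕ) : Finset (ℕ × Str) :=
  ((range (q + 1)) ×ˢ ((range (q + 1)).biUnion strs)).filter fun τ =>
    n ≤ lvl en τ ∧ lvl en τ ≤ q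

theorem mem_tasksOf {en : ℕ → Prog × ℕ} {n q : ℕ} {τ : ℕ × Str} :
    τ ∈ tasksOf en n q ↔ n ≤ lvl en τ ∧ lvl en τ ≤ q := by
  unfold tasksOf
  simp only [mem_filter, mem_product, mem_range, mem_biUnion]
  constructor
  · intro h
    exact h.2
  · intro h
    have h1 : τ.1 ≤ lvl en τ := by
      unfold lvl
      omega
    have h2 : τ.2.length ≤ lvl en τ := by
      unfold lvl
      omega
    refine ⟨⟨by omega, τ.2.length, by omega, mem_strs.2 rfl⟩, h⟩

theorem card_tasksOf (en : ℕ → Prog × ℕ) (n q : ℕ) : (tasksOf en n q).card ≤ 2 ^ (2 * q + 1) := by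
  have h1 : ((range (q + 1)).biUnion strs).card ≤ 2 ^ (q + 1) := by
    calc ((range (q + 1)).biUnion strs).card ≤ ∑ m ∈ range (q + 1), (strs m).card := card_biUnion_le
      _ = ∑ m ∈ range (q + 1), 2 ^ m := by
          apply sum_congr rfl
          intro m _
          exact card_strs m
      _ ≤ 2 ^ (q + 1) := by
          have h := Nat.geomSum_lt (m := 2) (n := q + 1) (s := range (q + 1)) le_rfl (by
            intro k hk
            exact mem_range.1 hk)
          exact h.le
  have h2 : q + 1 ≤ 2 ^ q := Nat.lt_two_pow_self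
  calc (tasksOf en n q).card
      ≤ ((range (q + 1)) ×ˢ ((range (q + 1)).biUnion strs)).card := card_filter_le _ _
    _ = (q + 1) * ((range (q + 1)).biUnion strs).card := by
        rw [card_product, card_range]
    _ ≤ 2 ^ q * 2 ^ (q + 1) := Nat.mul_le_mul h2 h1
    _ = 2 ^ (2 * q + 1) := by
        rw [← pow_add]
        congr 1
        omega

theorem card_level (en : ℕ → Prog × ℕ) (n q i : ℕ) :
    ((tasksOf en n q).filter fun τ => lvl en τ = i).card ≤ 2 ^ (2 * i + 1) := by
  refine le_trans (card_le_card ?_) (card_tasksOf en i i)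
  intro τ hτ
  have h := (mem_filter.1 hτ).2
  exact mem_tasksOf.2 ⟨h.symm.le, h.le⟩

end Pool.Agent.LibSC59
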