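import Pool.Agent.LibSC59.Win1

/-!
Finite partial oracles and windows.
-/

namespace Pool.Agent.LibSC59

open Finset Classical Pool.Agent.LibNexp Pool.Agent.LibSpec4 Pool.Agent.LibPP83
open Pool.Agent.LibSC59 (pgs pgs_injective lvl Dt AccX exists_term tasksOf mem_tasksOf
  card_tasksOf card_level Valid WP mem_WP win)

theorem card_Av {en : ℕ → Prog × ℕ} {φ : Part} {n q J i : ℕ} (hV : LibSC59.Valid en φ n)
    (hni : 2 * n ≤ i) : 2 ^ ell 0 i ≤ ((LibSC59.win en φ n q J).Av i).card + 2 ^ Qk 0 (2 * n) := by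
  have h1 : (strs (ell 0 i)).card = ((LibSC59.win en φ n q J).Av i).card +
      ((strs (ell 0 i)).filter fun r =>
        ¬ ∀ κ τ, 2 * LibSC59.lvl en τ = i → LibSC59.pgs r κ τ ∉ φ.D).card :=
    (Finset.card_filter_add_card_filter_not (s := strs (ell 0 i))
      (fun r => ∀ κ τ, 2 * LibSC59.lvl en τ = i → LibSC59.pgs r κ τ ∉ φ.D)).symm
  have h2 : ((strs (ell 0 i)).filter fun r =>
      ¬ ∀ κ τ, 2 * LibSC59.lvl en τ = i → LibSC59.pgs r κ τ ∉ φ.D).card ≤ 2 ^ Qk 0 (2 * n) := by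
    refine le_trans ?_ hV.few
    refine Finset.card_le_card_of_injOn
      (fun r => if h : ∃ κ τ, 2 * LibSC59.lvl en τ = i ∧ LibSC59.pgs r κ τ ∈ φ.D then
        LibSC59.pgs r h.choose h.choose_spec.choose else []) ?_ ?_
    · intro r hr
      rw [Finset.mem_coe, Finset.mem_filter] at hr
      have hex : ∃ κ τ, 2 * LibSC59.lvl en τ = i ∧ LibSC59.pgs r κ τ ∈ φ.D := by
        have := hr.2
        push Not at this
        exact this
      rw [Finset.mem_coe, Finset.mem_filter]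
      simp only [dif_pos hex]
      have hs := hex.choose_spec.choose_spec
      exact ⟨hs.2, r, hex.choose, hex.choose_spec.choose, by have := hs.1; omega, rfl⟩
    · intro r hr r' hr' he
      rw [Finset.mem_coe, Finset.mem_filter] at hr hr'
      have hex : ∃ κ τ, 2 * LibSC59.lvl en τ = i ∧ LibSC59.pgs r κ τ ∈ φ.D := by
        have := hr.2
        push Not at this
        exact this
      have hex' : ∃ κ τ, 2 * LibSC59.lvl en τ = i ∧ LibSC59.pgs r' κ τ ∈ φ.D := by
        have := hr'.2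
        push Not at this
        exact this
      simp only [dif_pos hex, dif_pos hex'] at he
      exact (LibSC59.pgs_injective he).1
  rw [card_strs] at h1
  omega

theorem card_pairs {en : ℕ → Prog × ℕ} {φ : Part} {n q J : ℕ} (hJ : J + 1 ≤ 2 ^ n) (i : ℕ) :
    ((prs (LibSC59.win en φ n q J) pgf).tl i).card ≤ 2 ^ (2 * i + 1) := by
  rcases ((prs (LibSC59.win en φ n q J) pgf).tl i).eq_empty_or_nonempty with h | ⟨⟨τ, κ⟩, h⟩
  · rw [h, card_empty]
    exact Nat.zero_le _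
  · have h1 : (τ, κ) ∈ (prs (LibSC59.win en φ n q J) pgf).tasks ∧ 2 * LibSC59.lvl en τ = i := by
      unfold Par.tl at h
      rw [mem_filter] at h
      exact h
    have h2 := (LibSC59.mem_tasksOf.1 (mem_prs.1 h1.1).1).1
    have h3 : (prs (LibSC59.win en φ n q J) pgf).tl i ⊆
        ((LibSC59.tasksOf en n q).filter fun τ' => LibSC59.lvl en τ' = LibSC59.lvl en τ) ×ˢ
          range (J + 1) := by
      rintro ⟨τ', κ'⟩ h4
      have h5 : (τ', κ') ∈ (prs (LibSC59.win en φ n q J) pgf).tasks ∧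
          2 * LibSC59.lvl en τ' = i := by
        unfold Par.tl at h4
        rw [mem_filter] at h4
        exact h4
      have h6 := mem_prs.1 h5.1
      rw [mem_product, mem_filter, mem_range]
      have h7 : LibSC59.lvl en τ' = LibSC59.lvl en τ := by
        have h8 := h5.2
        have h9 := h1.2
        omega
      exact ⟨⟨h6.1, h7⟩, Nat.lt_succ_of_le h6.2⟩
    refine (card_le_card h3).trans ?_
    rw [card_product, card_range]
    calc ((LibSC59.tasksOf en n q).filter fun τ' => LibSC59.lvl en τ' = LibSC59.lvl en τ).card *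
          (J + 1) ≤ 2 ^ (2 * LibSC59.lvl en τ + 1) * 2 ^ LibSC59.lvl en τ :=
          Nat.mul_le_mul (LibSC59.card_level en n q _)
            (hJ.trans (Nat.pow_le_pow_right (by norm_num) h2))
      _ = 2 ^ (3 * LibSC59.lvl en τ + 1) := by
          rw [← pow_add]
          congr 1
          omega
      _ ≤ 2 ^ (2 * i + 1) := Nat.pow_le_pow_right (by norm_num) (by omega)

theorem ok_win {en : ℕ → Prog × ℕ} {φ : Part} {n q J : ℕ} (hV : LibSC59.Valid en φ n)
    (hnq : n ≤ q) (hJ : J + 1 ≤ 2 ^ n) : (prs (LibSC59.win en φ n q J) pgf).Ok where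
  nq := Nat.mul_le_mul_left 2 hnq
  hlev := by
    rintro ⟨τ, κ⟩ hτ
    have h1 := LibSC59.mem_tasksOf.1 (mem_prs.1 hτ).1
    exact ⟨Nat.mul_le_mul_left 2 h1.1, Nat.mul_le_mul_left 2 h1.2⟩
  hnt := fun i => card_pairs hJ i
  hD := by
    rintro ⟨τ, κ⟩ _ t ht
    exact ht.1.2.1.trans (Nat.pow_le_pow_right (by norm_num) (by
      show LibSC59.lvl en τ ≤ 2 * LibSC59.lvl en τ
      omega))
  hDd := by
    rintro ⟨τ, κ⟩ _ t ht
    exact ht.1.1
  hsz := fun a b hab => Nat.pow_le_pow_right (by norm_num) hab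
  pg_inj := fun h => pgf_injective h
  pg_free := by
    rintro r κ0 ⟨τ, κ⟩ hκ hτ hr hf
    obtain rfl : κ0 = 0 := Nat.le_zero.1 hκ
    have h1 := mem_prs.1 hτ
    refine hf.2 (LibSC59.mem_WP.2 ⟨r, κ, τ, h1.1, h1.2, ?_, rfl⟩)
    exact mem_strs.1 (Finset.mem_filter.1 hr).1
  pg_Y := by
    rintro r κ0 ⟨τ, κ⟩ hκ hτ hr hf
    obtain rfl : κ0 = 0 := Nat.le_zero.1 hκ
    exact (Finset.mem_filter.1 hr).2 κ τ rfl (φ.sub hf)
  bp_spec := fun c j => lvc_le
  lv_bp := fun j => lvc_bp 0 j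
  typ_bp := fun j => typc_bp 0 j
  typ_two := fun c h => typc_two h
  typ_one := fun c h => ⟨(typc_one h).1, rfl, (typc_one h).2.2⟩
  typ_zero := typc_zero 0
  kd_le := fun c _ => le_refl 0
  runs := by
    intro i κ _ _ hκ
    obtain rfl : κ = 0 := Nat.le_zero.1 hκ
    obtain ⟨c0, h1, h2, h3⟩ := runs 0 i 0 (le_refl 0)
    refine ⟨c0, h1, fun d hd => ⟨(h2 d hd).1, rfl, (h2 d hd).2.2⟩, fun c hc hl => ?_⟩
    exact absurd (h3 c hc hl) (Nat.not_lt_zero _)
  hdep := fun i => show (2 : ℕ) ^ (2 * i + 1) < 2 ^ (2 * i + 2) from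
    Nat.pow_lt_pow_right (by norm_num) (by omega)
  u_pos := fun j => Nat.pow_pos (by norm_num)
  u_dvd := fun j => pow_dvd_pow 2 (gam_anti 0 (2 * q) (off_mono 0 (by omega)))
  A_dvd := fun c hc s => num_dvd hc s
  A_pos := fun c => Nat.pow_pos (by norm_num)
  A_le := fun c => ⟨Nat.pow_le_pow_right (by norm_num) (by
      have : 1 * gg 0 (lvc 0 c) ≤ 2 * gg 0 (lvc 0 c) := Nat.mul_le_mul_right _ (by norm_num)
      omega), Nat.pow_le_pow_right (by norm_num) (by
      have : 2 * gg 0 (lvc 0 c) ≤ 3 * gg 0 (lvc 0 c) := Nat.mul_le_mul_right _ (by norm_num)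
      omega)⟩
  big := by
    intro c hc
    show (2 : ℕ) ^ (3 * (2 * q) + 3) ≤ 2 ^ (gam 0 (2 * q) (c + 1) + 1 * gg 0 (lvc 0 c))
    refine Nat.pow_le_pow_right (by norm_num) ?_
    have h1 := vs_le 0 (2 * q) (c + 1)
    unfold vs at h1
    omega
  hβ1 := fun j => Nat.one_lt_two_pow (by omega)
  hβ := fun j hj c hc => num_beta hj hc
  loc := by
    intro i hni hiq
    have h1 := num_loc (J := 0) (q := 2 * q) (i := i) hiq
    have h2 := num_ell (k := 0) (J := 0) (n := 2 * n) (i := i) hni (Nat.zero_le _)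
    have h3 := card_Av (q := q) (J := J) hV hni
    exact lt_of_le_of_lt h1 (Nat.lt_of_add_lt_add_right (lt_of_lt_of_le h2 h3))
  loss := fun c _ hc => num_loss hc
  zero := fun c _ hc s hs => num_zero hc hs

/-- The outcome of a window. -/
theorem win_core {en : ℕ → Prog × ℕ} {φ : Part} {n q J : ℕ} (hV : LibSC59.Valid en φ n)
    (hnq : n ≤ q) (hJ : J + 1 ≤ 2 ^ n) : ∃ (E : Set Str) (σ : ℕ × Str → ℕ) (Z : Finset Str)
      (fam : ℕ × Str → List (Term Str)), (LibSC59.win en φ n q J).Out E σ Z fam := by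
  obtain ⟨E, σ', Z, fam', ho⟩ := Par.core (ok_win hV hnq hJ)
  obtain ⟨σ, fam, h⟩ := out_prs (p := LibSC59.win en φ n q J) (pg' := pgf)
    (fun r κ τ _ => rfl) Nat.one_le_two_pow ho
  exact ⟨E, σ, Z, fam, h⟩

end Pool.Agent.LibSC59
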