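import Pool.Agent.LibSC59.Str
import Pool.Agent.LibSC59.Pairs
import Pool.Agent.LibPP83.Win1

/-!
Finite partial oracles and windows.
-/

namespace Pool.Agent.LibSC59

open Finset Classical Pool.Agent.LibNexp Pool.Agent.LibSpec4
open Pool.Agent.LibPP83 (Term Str Par Part Wk mem_Wk card_Wk Wk_unique kv kv_eq kv_pos lvc kdc typc
  off AA uu lm be ell Qk pz)

/-- Everything about the levels below `n` is decided. -/
structure Valid (en : ℕ → Prog × ℕ) (φ : Part) (n : ℕ) : Prop where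
  dec : ∀ τ, lvl en τ < n → ∀ O O' : Str → Bool, φ.Ext O → φ.Ext O' →
    AccX en O τ.1 τ.2 → AccX en O' τ.1 τ.2
  page : ∀ i < n, ∃ κ < 2 ^ i, ∃ r : Str, r.length = ell 0 (2 * i) ∧
    ∀ O : Str → Bool, φ.Ext O → ∀ τ, lvl en τ = i →
      (O (pgs r κ τ) = true ↔ AccX en O τ.1 τ.2)
  few : (φ.D.filter fun z => ∃ r κ τ, n ≤ lvl en τ ∧ z = pgs r κ τ).card ≤ 2 ^ Qk 0 (2 * n)
  short : ∀ z : Str, true :: z ∈ φ.D → (true :: z).length < n + 2 ^ n

/-- All page strings of the window. -/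
noncomputable def WP (en : ℕ → Prog × ℕ) (n q J : ℕ) : Finset Str :=
  (tasksOf en n q).biUnion fun τ => (range (J + 1)).biUnion fun κ =>
    (strs (ell 0 (2 * lvl en τ))).image fun r => pgs r κ τ

theorem mem_WP {en : ℕ → Prog × ℕ} {n q J : ℕ} {z : Str} : z ∈ WP en n q J ↔
    ∃ r κ τ, τ ∈ tasksOf en n q ∧ κ ≤ J ∧ r.length = ell 0 (2 * lvl en τ) ∧ z = pgs r κ τ := by
  unfold WP
  simp only [mem_biUnion, mem_image, mem_strs, mem_range]
  constructor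
  · rintro ⟨τ, hτ, κ, hκ, r, hr, rfl⟩
    exact ⟨r, κ, τ, hτ, by omega, hr, rfl⟩
  · rintro ⟨r, κ, τ, hτ, hκ, hr, rfl⟩
    exact ⟨τ, hτ, κ, by omega, r, hr, rfl⟩

/-- The window `[n, q]` with `J` inputs which may have a witness; the levels are doubled. -/
noncomputable def win (en : ℕ → Prog × ℕ) (φ : Part) (n q J : ℕ) :
    Par Str (ℕ × Str) Str where
  n := 2 * n
  q := 2 * q
  J := J
  tasks := tasksOf en n q
  lev := fun τ => 2 * lvl en τ
  D := Dt en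
  sz := fun i => 2 ^ i
  nt := fun i => 2 ^ (2 * i + 1)
  pg := pgs
  Av := fun i => (strs (ell 0 i)).filter fun r => ∀ κ τ, 2 * lvl en τ = i → pgs r κ τ ∉ φ.D
  Free := {z | z ∉ φ.D ∧ z ∉ WP en n q J}
  kv := kv n J
  Y := {z | z ∈ φ.Y}
  lv := lvc 0
  kd := kdc 0
  typ := typc 0
  bp := fun j => off 0 (j + 1) - 1
  A := AA 0 (2 * q)
  u := uu 0 (2 * q)
  lam := lm 0 (2 * q)
  β := be 0
  θ := 2 ^ (3 * (2 * q) + 3)
  dep := fun i => 2 * i + 2
  M := 2 ^ (3 * (2 * q) + 3)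

end Pool.Agent.LibSC59
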