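import Pool.Agent.LibSC59.New4
import Pool.Agent.LibSC59.Real

/-!
One window.
-/

namespace Pool.Agent.LibSC59

open Finset Classical Pool.Agent.LibNexp Pool.Agent.LibSpec4 Pool.Agent.LibPP83

variable {en : ℕ → Prog × ℕ} {φ : Part} {n q J : ℕ}

theorem tasks_bound (en : ℕ → Prog × ℕ) (n q : ℕ) :
    4 * ((tasksOf en n q).card * 2 ^ (2 * q)) ≤ 2 ^ (3 * (2 * q) + 3) := by
  have h1 := card_tasksOf en n q
  calc 4 * ((tasksOf en n q).card * 2 ^ (2 * q)) ≤ 4 * (2 ^ (2 * q + 1) * 2 ^ (2 * q)) :=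
        Nat.mul_le_mul_left _ (Nat.mul_le_mul_right _ h1)
    _ = 2 ^ 2 * (2 ^ (2 * q + 1) * 2 ^ (2 * q)) := by norm_num
    _ = 2 ^ (2 + (2 * q + 1 + 2 * q)) := by rw [← pow_add, ← pow_add]
    _ ≤ 2 ^ (3 * (2 * q) + 3) := Nat.pow_le_pow_right (by norm_num) (by omega)

theorem succ_le_of (hn : J = 0 ∨ 1 ≤ n ∧ J ≤ 2 ^ (n - 1)) : J + 1 ≤ 2 ^ n := by
  rcases hn with h | ⟨h1, h2⟩
  · rw [h]
    exact Nat.one_le_two_pow
  · have h3 : 2 ^ n = 2 * 2 ^ (n - 1) := by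
      rw [← pow_succ']
      congr 1
      omega
    have h4 : 1 ≤ 2 ^ (n - 1) := Nat.one_le_two_pow
    omega

theorem exists_choice
    (hn : J = 0 ∨ 1 ≤ n ∧ J ≤ 2 ^ (n - 1) ∧ pz 0 (2 * q) < 2 ^ n) {E : Set Str}
    {σ : ℕ × Str → ℕ} {Z : Finset Str} {fam : ℕ × Str → List (Term Str)}
    (ho : (win en φ n q J).Out E σ Z fam) {κ : ℕ} (hκ : κ ≤ J) :
    ∃ (ch : ℕ × Str → Term Str) (w : ℕ → Str), Choice en φ n q J E σ Z fam κ ch w := by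
  have hM1 : 1 ≤ (win en φ n q J).M := Nat.one_le_two_pow
  have hθ : 4 * ((win en φ n q J).tasks.card *
      (win en φ n q J).sz (win en φ n q J).q) ≤ (win en φ n q J).θ := tasks_bound en n q
  have hM : 4 * ((win en φ n q J).tasks.card *
      (win en φ n q J).sz (win en φ n q J).q) ≤ (win en φ n q J).M := tasks_bound en n q
  have hD : ∀ τ ∈ (win en φ n q J).tasks, ∀ t ∈ (win en φ n q J).D τ,
      t.1.card + t.2.card ≤ (win en φ n q J).sz (win en φ n q J).q := by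
    intro τ hτ t ht
    have h1 := (mem_tasksOf.1 hτ).2
    exact ht.2.1.trans (Nat.pow_le_pow_right (by norm_num) (by
      show lvl en τ ≤ 2 * q
      omega))
  obtain ⟨ch, h1, h2⟩ := realise hD (fun τ _ t ht => ht.1) ho hM1 hθ hM (κ := κ) hκ
  have hch : ∀ τ ∈ tasksOf en n q, σ τ ≤ κ → ch τ ∈ Dt en τ := fun τ hτ hσ => (h1 τ hτ hσ).1
  have hcard := touched_card (κ := κ) ho hch
  have hw : ∀ κ', ∃ z : Str, 1 ≤ κ' → κ' ≤ κ → z ∈ Wk n κ' ∧ z ∉ Z ∧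
      ∀ τ ∈ tasksOf en n q, σ τ ≤ κ → z ∉ (ch τ).2 := by
    intro κ'
    by_cases hk : 1 ≤ κ' ∧ κ' ≤ κ
    · obtain ⟨hk1, hk2⟩ := hk
      rcases hn with hn | ⟨hn1, hn2, hn3⟩
      · omega
      · have hlt : (Z ∪ ((tasksOf en n q).filter fun τ => σ τ ≤ κ).biUnion fun τ =>
            (ch τ).1 ∪ (ch τ).2).card < (Wk n κ').card := by
          rw [card_Wk]
          exact lt_of_le_of_lt hcard (Nat.pow_lt_pow_right (by norm_num) hn3)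
        obtain ⟨z, hz, hz2⟩ := Finset.exists_mem_notMem_of_card_lt_card hlt
        refine ⟨z, fun _ _ => ⟨hz, fun hzZ => hz2 (Finset.mem_union_left _ hzZ), ?_⟩⟩
        intro τ hτ hσ hzτ
        exact hz2 (Finset.mem_union_right _ (Finset.mem_biUnion.2
          ⟨τ, Finset.mem_filter.2 ⟨hτ, hσ⟩, Finset.mem_union_right _ hzτ⟩))
    · exact ⟨[], fun a b => absurd ⟨a, b⟩ hk⟩
  choose w hw using hw
  refine ⟨ch, w, ⟨ho, hκ, h1, h2, hw⟩⟩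

theorem window (hV : Valid en φ n) (hnq : n ≤ q)
    (hn : J = 0 ∨ 1 ≤ n ∧ J ≤ 2 ^ (n - 1) ∧ pz 0 (2 * q) < 2 ^ n) :
    ∃ σ : ℕ × Str → ℕ, ∀ κ ≤ J, ∃ ψ : Part, φ.Le ψ ∧ Valid en ψ (q + 1) ∧
      ∀ O : Str → Bool, ψ.Ext O →
        (∀ τ, n ≤ lvl en τ → lvl en τ ≤ q → (AccX en O τ.1 τ.2 ↔ σ τ ≤ κ)) ∧
        ∀ κ', 1 ≤ κ' → κ' ≤ J → (xs n (κ' - 1) ∈ WitLang O ↔ κ' ≤ κ) := by
  have hn1 : J = 0 ∨ 1 ≤ n := hn.imp_right fun h => h.1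
  have hn2 : J = 0 ∨ 1 ≤ n ∧ J ≤ 2 ^ (n - 1) := hn.imp_right fun h => ⟨h.1, h.2.1⟩
  have hJ := succ_le_of hn2
  obtain ⟨E, σ, Z, fam, ho⟩ := win_core hV hnq hJ
  refine ⟨σ, fun κ hκ => ?_⟩
  obtain ⟨ch, w, hc⟩ := exists_choice hn ho hκ
  refine ⟨newPart en φ n q J E σ Z κ ch w, new_le hV hn1 hc,
    new_valid hV hnq hJ hn2 hc, fun O hO => ⟨fun τ h1 h2 => new_acc hV hn2 hc hO h1 h2,
    fun κ' h1 h2 => new_wit hV hn2 hc hO h1 h2⟩⟩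

theorem idle (hV : Valid en φ n) : ∃ ψ : Part, φ.Le ψ ∧ Valid en ψ (n + 1) := by
  obtain ⟨σ, h⟩ := window (q := n) (J := 0) hV le_rfl (Or.inl rfl)
  obtain ⟨ψ, h1, h2, -⟩ := h 0 le_rfl
  exact ⟨ψ, h1, h2⟩

end Pool.Agent.LibSC59
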